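import Pool.Agent.TH658.Sos.Grp

/-!
# Algebraic proofs of the non-isomorphism of groups need degree of order `log n`

There is a constant `C` such that for every odd prime `p` and every `d ≥ 1` there are two
non-isomorphic groups `G`, `H` of the same order `n = p ^ r`, `r ≤ C d` (of exponent `p` and
nilpotency class two), whose Latin square graphs are not isomorphic, but such that

* over no field of characteristic different from `p` does the polynomial calculus (Gröbner basis
  computations) refute the isomorphism of the Latin square graphs in degree `d`;
* the Positivstellensatz calculus over the reals (in particular the sum-of-squares method) does not
  refute it in degree `d`.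

So algebraic and semialgebraic proofs of bounded degree do not even decide the isomorphism of
finite groups given by their multiplication tables; they need degree of order `log n`, where degree
`O (log n)` trivially suffices.

The groups are the ones of the starting result `MP_f1a348_lc.GroupWLDimension`
(`Pool/Agent/W879/GW`), which proves that the Weisfeiler-Leman algorithm does not distinguish them in
dimension `Ω (d)`. That result says nothing about polynomial calculus over fields of positive
characteristic, where linear systems modulo other primes can be solved.

Proof idea. A linear map `M` from `A` to `B` is a solution on a small subspace `W` of `A` if it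
satisfies the consequences of the equations that live on `W`. The average over the local solutions
gives a functional `E` on the polynomials of small degree that kills the axioms. Over the algebraic
closure (characteristic not `p`) expand in characters `ψ` of the group of all `M`; two characters
are equivalent if their quotient is constant on the solutions of a small level. A polynomial is
good if `E (ψ f) = 0` for all characters `ψ` of small level. If `f` is good then so is `x f`, because
a character of slightly larger level is either equivalent to one of small level or annihilates all
monomials of small degree. Over the reals `E` is nonnegative on squares since its matrix has rank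
one on every equivalence class of characters.
-/

set_option autoImplicit false

namespace Pool.Agent.Results.MP_f1a348_lc.AlgebraicProofsGroups

open Pool.Agent.W185.SRG Pool.Agent.W185.LSQ Pool.Agent.W879.GW Pool.Agent.TH658.Sos

theorem result : ∃ C : ℕ, ∀ p : ℕ, p.Prime → p ≠ 2 → ∀ d : ℕ, 1 ≤ d →
    ∃ (G H : Type) (_ : Group G) (_ : Group H) (_ : Fintype G) (_ : Fintype H) (r : ℕ),
      r ≤ C * d ∧ Fintype.card G = p ^ r ∧ Fintype.card H = p ^ r ∧
      ExpClassTwo p G ∧ ExpClassTwo p H ∧ IsEmpty (G ≃* H) ∧
      IsEmpty (latinGraph (fun a b : G => a * b) ≃g latinGraph (fun a b : H => a * b)) ∧
      (∀ (K : Type) [Field K], (p : K) ≠ 0 → ¬ PCRefutes K (latinGraph fun a b : G => a * b)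
        (latinGraph fun a b : H => a * b) d) ∧
      ¬ PosRefutes (latinGraph fun a b : G => a * b) (latinGraph fun a b : H => a * b) d :=
  ⟨2022, fun p hp hp2 d hd => mainGroups p hp hp2 d hd⟩

end Pool.Agent.Results.MP_f1a348_lc.AlgebraicProofsGroups
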