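import Pool.Agent.TH658.Sos.ImGrp

/-!
# The invertible-map test needs dimension of order `log n` for groups

There is a constant `C` such that for every odd prime `p` and every `k ≥ 1` there are two
non-isomorphic groups `G`, `H` of the same order `n = p ^ r`, `r ≤ C k` (of exponent `p` and
nilpotency class two), whose Latin square graphs are not isomorphic but are not distinguished by
the `k`-dimensional invertible-map test of Dawar and Holm over all fields of characteristic
different from `p`. This test refines the `k`-dimensional Weisfeiler-Leman algorithm and
the equivalence given by `k`-variable formulas with rank operators; so no formula of infinitary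
logic with rank operators over fields of characteristic different from `p` and with fewer than
`c log n` variables expresses the isomorphism of groups of order `n`.

The groups are the ones of the starting result `MP_f1a348_lc.GroupWLDimension`
(`Pool/Agent/W879/GW`), which treats the Weisfeiler-Leman algorithm.

Proof idea. The group `X` of linear maps `A → B` acts on the cells by shears, and tuples are
equivalent if a shear that solves the equations locally moves one to the other. Let `M₀` be a local
solution that moves the tuple `u` to `v`, and let `N` be the group of the shears fixing `u`. For
every tuple `x` and character `χ` of `N` the component `f_χ (x)` of a function `f` is multiplied by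
a number `s (x, χ)`. The numbers are chosen such that
`s (x, χ) / s (y, χ') = (χ' / χ) (τ)` for all pairs for which `χ` and `χ'` agree on the shears in
`N` that solve the homogeneous equations at the levels of `u`, `x`, `y`, and `M₀ + τ` solves
the equations at these levels; this is possible as local solutions can be extended. The resulting
matrix transforms all class matrices of `u` into those of `v` simultaneously
(`Pool.Agent.TH658.Sos.exists_intertwiner`).
-/

set_option autoImplicit false

namespace Pool.Agent.Results.MP_f1a348_lc.InvertibleMapGroups

open Pool.Agent.W185.SRG Pool.Agent.W185.LSQ Pool.Agent.W879.GW Pool.Agent.TH658.Sos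

theorem result : ∃ C : ℕ, ∀ p : ℕ, p.Prime → p ≠ 2 → ∀ k : ℕ, 1 ≤ k →
    ∃ (G H : Type) (_ : Group G) (_ : Group H) (_ : Fintype G) (_ : Fintype H) (r : ℕ),
      r ≤ C * k ∧ Fintype.card G = p ^ r ∧ Fintype.card H = p ^ r ∧
      ExpClassTwo p G ∧ ExpClassTwo p H ∧ IsEmpty (G ≃* H) ∧
      IsEmpty (latinGraph (fun a b : G => a * b) ≃g latinGraph (fun a b : H => a * b)) ∧
      IMEquiv p k (latinGraph fun a b : G => a * b) (latinGraph fun a b : H => a * b) :=
  ⟨1350, fun p hp hp2 k hk => mainGroupsIM p hp hp2 k hk⟩

end Pool.Agent.Results.MP_f1a348_lc.InvertibleMapGroups
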