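import Pool.Agent.TH661.LRS.GI5

set_option autoImplicit false

/-!
# Semidefinite programs for graph isomorphism

The definitions used in the statement are in `Pool/Agent/TH661/LRS/GI.lean`:

* `agree G H π`: the number of pairs of vertices on which the bijection `π` preserves adjacency
  and non-adjacency (it is `n.choose 2` if and only if `π` is an isomorphism);
* `Small s G`: at most `s` vertices of `G` are not isolated;
* `IsoSDP n k r s ε`: the semidefinite programming formulations, with gap `ε`, of the isomorphism
  problem for pairs of graphs on `n` vertices with at most `s` non-isolated vertices, with `k`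
  binary variables, any number of free real variables and linear equations, and a positive
  semidefinite matrix variable of order `r`;
* `bits β` (in `Cut.lean`): the zero-one vector of the truth values `β`.

Idea of the proof. Take an unsatisfiable system of `N = O(m)` equations modulo `2`, in `m`
variables with three variables in each, with a pseudo-density `D` of linear degree `t` under which
all the equations hold. Replace every variable by `b = n ^ Ω(1)` copies. For every choice `S` of
one copy of every variable there are two non-isomorphic graphs, on `O(b ^ 3 m)` common vertices
and with `2 m + 8 N` non-isolated vertices, such that for every assignment `x` of the copies there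
is a permutation of the vertices whose number of disagreements is a function of degree `3` of the
values of `x` on `S` with pseudo-expectation `0`. By duality a formulation gives positive
semidefinite matrices `P S` and `Q x` of order `2 ^ k (r + 1)` such that `tr (P S * Q x)` is almost
this number minus `ε`. A polynomial of degree `(log n) t`, applied to the average of
`D (x|S) P S` over `S`, isolates the negative eigenvalues of this matrix, and its square is a
low-degree function of `x`, against which the average of `D (x|S) P S` cannot be negative for
typical `S`, unless `2 ^ k (r + 1) ≥ n ^ Ω(t)`.
-/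

namespace Pool.Agent.Results.MP_f1a348_lc.SemidefiniteFormulations

open Pool.Agent.TH661.LRS

/-- There is a constant `C` such that the following holds for all `s ≥ C` and `n ≥ 2 ^ (C s)`.

(1) Every semidefinite programming formulation, with `k` binary variables and a positive
semidefinite matrix variable of order `r`, with gap `ε ≥ n ^ (-1 / 2)`, of the isomorphism problem
for graphs on `n` vertices with at most `s'` non-isolated vertices, where `s' ≥ s` (for `s' = n`
these are all graphs on `n` vertices), satisfies `2 ^ k (r + 1) ≥ n ^ (s / C)`.

(2) For graphs with at most `s` non-isolated vertices there is such a formulation with `k = 0`,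
`r = n ^ (2 s)` and `ε = 1`. -/
theorem result : ∃ C : ℕ, 1 ≤ C ∧ ∀ n s : ℕ, C ≤ s → C * s ≤ Nat.log 2 n →
    (∀ (k r s' : ℕ) (ε : ℝ), s ≤ s' → (n : ℝ) ^ (-(1 / 2) : ℝ) ≤ ε →
      Nonempty (IsoSDP n k r s' ε) → (n : ℝ) ^ ((s : ℝ) / C) ≤ 2 ^ k * (r + 1)) ∧
    Nonempty (IsoSDP n 0 (n ^ (2 * s)) s 1) := by
  obtain ⟨C, hC, h⟩ := iso_lower
  refine ⟨C, hC, fun n s hs hn => ⟨?_, ?_⟩⟩
  · rintro k r s' ε hss hε ⟨F⟩
    exact h n k r s ε hs hn hε ⟨F.mono hss⟩
  · refine iso_upper ?_ s
    by_contra h0
    have h1 : n = 0 := by omega
    subst h1
    simp only [Nat.log_zero_right, Nat.le_zero, mul_eq_zero] at hn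
    omega

end Pool.Agent.Results.MP_f1a348_lc.SemidefiniteFormulations
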