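import Pool.Agent.TH658.Dg.TMain

/-!
# Algebraic proofs of the non-isomorphism of tournaments need linear degree

There is a constant `C` such that for every `d ≥ 1` there are two non-isomorphic tournaments on at
most `C d` vertices such that

* over no field whatsoever does the polynomial calculus (Gröbner basis computations) refute their
  isomorphism in degree `d`;
* the Positivstellensatz calculus over the reals (in particular the sum-of-squares method) does not
  refute it in degree `d`.

The isomorphism of tournaments on `n` vertices can be decided in time `n ^ O(log n)` (Babai and
Luks), because the automorphism groups are solvable of odd order; it is one of the best known cases
of the graph isomorphism problem for which no polynomial time algorithm is known. The theorem says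
that Gröbner bases, over all fields at once, and sums of squares need degree of order `n` for it
(degree `O(n)` suffices for all graphs).

Proof idea. Let `E` be the edge set of an expander (the Margulis graph on `(ZMod m) ^ 2`). Consider
the linear systems over `ZMod 15` for flows `f` on the expander, with vanishing excess at all
vertices but one, where it is `b`. A structure `A_b` has for every edge the possible values of the
flow, and for every vertex `v` the local flows around `v` with the right excess, so that its
isomorphisms are the flows. A system is solvable if and only if `b = 0`. The tournament `T` is a
cyclic composition of the structures for `b = 0, 8, 1`, the tournament `T'` a cyclic composition of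
the ones for `b = 5, 13, 6`. All the differences in the given order are `5`, and after a rotation of
the three components (`0 → 6`, `8 → 5`, `1 → 13`) they are `6, -3, 12`, all divisible by `3`. So the
local isomorphisms from `T` to `T'` that keep the order of the components contain the local
solutions of an expander system over `ZMod 3`, and the ones with the rotation contain those of an
expander system over `ZMod 5`; but there is no isomorphism. The functionals given by the local
solutions over `ZMod 3` work over all fields of characteristic different from `3`, the ones over
`ZMod 5` over all fields of characteristic different from `5`. Tournaments on abelian groups of odd order (`x → y` if `x - y` comes before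
`y - x` in a numbering of the group) are used to orient the pairs inside the classes, and pads with
different out-degrees to make the classes invariant.
-/

set_option autoImplicit false

namespace Pool.Agent.Results.MP_f1a348_lc.TournamentProofs

open Pool.Agent.TH658.Dg

theorem result : ∃ C : ℕ, ∀ d : ℕ, 1 ≤ d →
    ∃ (V : Type) (_ : Fintype V) (T T' : V → V → Prop),
      Fintype.card V ≤ C * d ∧ IsTournament T ∧ IsTournament T' ∧
      (¬ ∃ φ : V ≃ V, ∀ x y, T x y ↔ T' (φ x) (φ y)) ∧
      (∀ (K : Type) [Field K], ¬ PCRefutes K T T' d) ∧ ¬ PosRefutes T T' d :=
  ⟨10 ^ 18, mainProofs⟩

end Pool.Agent.Results.MP_f1a348_lc.TournamentProofs
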